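import Mathlib

set_option autoImplicit false

open scoped ComplexConjugate
noncomputable section
namespace H68R2.BP.T_unqaux

variable {A : Type} [CStarAlgebra A]

theorem exp_eq_cfc (h : A) (hh : IsSelfAdjoint h) :
    NormedSpace.exp h = cfc Real.exp h :=
  (CFC.real_exp_eq_normedSpace_exp hh).symm

theorem exp_sa (h : A) (hh : IsSelfAdjoint h) : IsSelfAdjoint (NormedSpace.exp h) := by
  rw [exp_eq_cfc h hh]
  exact cfc_predicate _ _

/-- norm of `exp (- a exp h)` -/
theorem norm_exp_le (h : A) (hh : IsSelfAdjoint h) (a : ℝ) (ha : 0 ≤ a) :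
    ‖NormedSpace.exp ((-a) • NormedSpace.exp h : A)‖ ≤
      Real.exp (-a * Real.exp (-‖h‖)) := by
  have hE : IsSelfAdjoint ((-a) • NormedSpace.exp h : A) :=
    (IsSelfAdjoint.all (-a)).smul (exp_sa h hh)
  rw [exp_eq_cfc _ hE, exp_eq_cfc h hh]
  have e1 : (-a) • cfc Real.exp h = cfc (fun x => (-a) • Real.exp x) h :=
    (cfc_smul (-a) Real.exp h (by fun_prop)).symm
  rw [e1]
  have e2 : cfc Real.exp (cfc (fun x => (-a) • Real.exp x) h) =
      cfc (fun x => Real.exp ((-a) • Real.exp x)) h :=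
    (cfc_comp' Real.exp (fun x => (-a) • Real.exp x) h (by fun_prop) (by fun_prop) hh).symm
  rw [e2]
  refine norm_cfc_le (Real.exp_pos _).le fun x hx => ?_
  rw [Real.norm_of_nonneg (Real.exp_pos _).le]
  refine Real.exp_le_exp.mpr ?_
  simp only [smul_eq_mul]
  have hx' : -‖h‖ ≤ x := by
    rcases subsingleton_or_nontrivial A with hA | hA
    · exact absurd hx (by simp [spectrum.of_subsingleton])
    · have h3 : ‖x‖ ≤ ‖h‖ := spectrum.norm_le_norm_of_mem hx
      exact (abs_le.mp h3).1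
  have := Real.exp_le_exp.mpr hx'
  nlinarith

theorem norm_exp_mul (h : A) (hh : IsSelfAdjoint h) (lam : ℂ) (hl : 0 ≤ lam.re) :
    ‖NormedSpace.exp ((-lam) • NormedSpace.exp h : A)‖ ≤
      Real.exp (-lam.re * Real.exp (-‖h‖)) := by
  let _ : NormedAlgebra ℚ A := .restrictScalars ℚ ℂ A
  set E : A := NormedSpace.exp h with hEdef
  have hE : IsSelfAdjoint E := exp_sa h hh
  have h1 : (-lam) • E = (Complex.I • ((-lam.im) • E)) + (-lam.re) • E := by
    have : (-lam) = Complex.I * ((-lam.im : ℝ) : ℂ) + ((-lam.re : ℝ) : ℂ) := by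
      apply Complex.ext <;> simp
    rw [this, add_smul, mul_smul]
    simp only [Complex.coe_smul]
  have hc : Commute (Complex.I • ((-lam.im) • E)) ((-lam.re) • E) :=
    (((Commute.refl E).smul_right _).smul_left _).smul_left _
  rw [h1, NormedSpace.exp_add_of_commute hc]
  have hsa : IsSelfAdjoint ((-lam.im) • E) := (IsSelfAdjoint.all (-lam.im)).smul hE
  have hu : NormedSpace.exp (Complex.I • ((-lam.im) • E)) =
      ((selfAdjoint.expUnitary ⟨(-lam.im) • E, hsa⟩ : unitary A) : A) := rfl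
  rw [hu, CStarRing.norm_coe_unitary_mul]
  exact norm_exp_le h hh _ hl

theorem unq_abs (h Y : A) (hh : IsSelfAdjoint h) (lam : ℂ) (hlam : 0 < lam.re)
    (heq : lam • (NormedSpace.exp h * Y) + conj lam • (Y * NormedSpace.exp h) = 0) : Y = 0 := by
  let _ : NormedAlgebra ℚ A := .restrictScalars ℚ ℂ A
  set E : A := NormedSpace.exp h with hE
  have h1 : lam • (E * Y) = -(conj lam • (Y * E)) := eq_neg_of_add_eq_zero_left heq
  -- the semiconjugation
  have hs : ∀ s : ℝ, SemiconjBy Y (-(((s : ℂ) * conj lam) • E)) (((s : ℂ) * lam) • E) := by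
    intro s
    show Y * _ = _ * Y
    rw [mul_neg, mul_smul_comm, smul_mul_assoc, mul_smul, mul_smul, h1, smul_neg]
  have key : ∀ s : ℝ, 0 ≤ s → ‖Y‖ ≤ Real.exp (-(2 * s * lam.re) * Real.exp (-‖h‖)) * ‖Y‖ := by
    intro s hs0
    have h2 := (hs s).exp_neg_mul_mul_exp_eq_self
    have h3 : ‖NormedSpace.exp (-(((s : ℂ) * lam) • E))‖ ≤
        Real.exp (-(s * lam.re) * Real.exp (-‖h‖)) := by
      have := norm_exp_mul h hh ((s : ℂ) * lam) (by simp; positivity)
      rw [neg_smul] at this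
      simpa using this
    have h4 : ‖NormedSpace.exp (-(((s : ℂ) * conj lam) • E))‖ ≤
        Real.exp (-(s * lam.re) * Real.exp (-‖h‖)) := by
      have := norm_exp_mul h hh ((s : ℂ) * conj lam) (by simp; positivity)
      rw [neg_smul] at this
      simpa using this
    calc ‖Y‖ = ‖NormedSpace.exp (-(((s : ℂ) * lam) • E)) * Y *
          NormedSpace.exp (-(((s : ℂ) * conj lam) • E))‖ := by rw [h2]
      _ ≤ ‖NormedSpace.exp (-(((s : ℂ) * lam) • E))‖ * ‖Y‖ *
          ‖NormedSpace.exp (-(((s : ℂ) * conj lam) • E))‖ :=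
          (norm_mul_le _ _).trans (mul_le_mul_of_nonneg_right (norm_mul_le _ _) (norm_nonneg _))
      _ ≤ Real.exp (-(s * lam.re) * Real.exp (-‖h‖)) * ‖Y‖ *
          Real.exp (-(s * lam.re) * Real.exp (-‖h‖)) := by gcongr
      _ = Real.exp (-(2 * s * lam.re) * Real.exp (-‖h‖)) * ‖Y‖ := by
          rw [mul_right_comm, ← Real.exp_add]
          congr 2
          ring
  have k1 := key (1 / lam.re) (by positivity)
  have k2 : Real.exp (-(2 * (1 / lam.re) * lam.re) * Real.exp (-‖h‖)) < 1 := by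
    rw [Real.exp_lt_one_iff]
    have : 2 * (1 / lam.re) * lam.re = 2 := by field_simp
    rw [this]
    have := Real.exp_pos (-‖h‖)
    linarith
  have k3 : ‖Y‖ ≤ 0 := by
    by_contra hY
    push Not at hY
    nlinarith
  exact norm_le_zero_iff.mp k3

end H68R2.BP.T_unqaux
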