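import Mathlib
import Pool.Agent.H68R2.BP.Props2
import Pool.Agent.H339R2.BP.UnqA

set_option autoImplicit false

open scoped ComplexOrder InnerProductSpace ComplexConjugate Topology
open Finset Filter
noncomputable section
namespace H68R2.BP
open H759R2.Kad H744R2.KZ

theorem prove_T_unq : T_unq := by
  intro H _ _ _ h Y hh lam hlam heq
  exact T_unqaux.unq_abs h Y hh lam hlam heq

end H68R2.BP
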